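import Pool.Agent.H79.RV.Main

/-!
# `ℓ²`-homology above half the dimension: vanishing in single degrees

Let `G` be a finite graph with the flag complex `L` and `W G` its right-angled Coxeter group. If `L` is a full
subcomplex of a flag triangulation of the `(n-1)`-sphere then `W G` acts geometrically on a contractible
`n`-manifold with boundary, and Q1 predicts that its reduced `ℓ²`-homology, that is the one of the Davis complex,
vanishes in the degrees `i > n / 2` (`L2Van G i`).

Earlier work proves this by several unrelated methods for several classes of complexes:

* order complexes of Gorenstein* posets, stellar subdivisions and local conditions (the classes `AM n`, `AQ n`),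
  balanced complexes with vanishing van Kampen obstruction, flat homology spheres (`CV b n`);
* balanced complexes embedded in spheres, relative subdivisions, vertex splittings (`SQ b`);
* few vertices (flag homology spheres with at most `2 n + i` vertices, complexes with less than `3 i` vertices);
* Morse functions with values in the circle: systems of slopes with acyclic ascending links;
* the gluing inequality (connected sums);
* the criterion that for all full subcomplexes in all degrees `≥ k` the degree `k` of the links suffices;
* Poincaré duality and the Euler characteristic.

Each of these results is about a class which is closed under some of the operations only, and most of the classes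
are defined by conditions on all degrees above a bound at the same time; this is also true for the class `JC b n` of
the hand-in `JointClosure` of this problem, whose rules do not include Morse functions, the link criterion and
relative subdivisions.

The class `Van i G` is the smallest class of pairs of a degree `i` and a finite graph `G` which contains all these
examples and is closed under the operations listed in its definition (adding and removing vertices, deleting edges,
vertex splitting, two kinds of gluing, joins, the link criterion, duality, the rule for Euler characteristic zero),
where every operation needs the other complexes only in the degree in which they are used (the degree `i - 1` for links of added vertices and of deleted edges and for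
intersections, the degree `i` for links of removed vertices, degrees `p + q = i` for joins, the degree `n - i` for
the duality). So a single degree above the middle, for example the critical degree `(n + 1) / 2`, can be reached
without any information on the others.

**Theorem.** (1) If `Van i G` then the reduced `ℓ²`-homology of the Davis complex of `W G` vanishes in the degree
`i`. (2) If `Van i G` for all `i` in a set `J` then for every `ε > 0` there is a finite set `E` of nontrivial
elements of `W G` such that for all `i ∈ J` the `i`-th real Betti number of every subgroup `H` of finite index which
contains no conjugate of an element of `E` is at most `ε [W G : H]`. (3) Let the flag complex of `G` be a real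
homology sphere of dimension `n - 1` and `Van i G` for all `i > n / 2`. Then `Van i G` for all `i ≠ n / 2` (the Singer
conjecture for `W G`), and `(-1)^(n/2) χ(W G) ≥ 0` if `n` is even (the conjecture of Charney and Davis).
-/

set_option autoImplicit false

namespace Pool.Agent.Results.MP_ea75ba_gt.DegreewiseClosure

open Pool.Agent.W907.SG Pool.Agent.W907.SM Pool.Agent.TH652.Above Pool.Agent.Y132.SI Pool.Agent.H79.RV

/-- **Vanishing in single degrees.** See the explanations above. -/
theorem result :
    (∀ (i : ℕ) (V : Type) [Fintype V] [LinearOrder V] (G : SimpleGraph V), Van i G → L2Van G i) ∧
    (∀ (J : Set ℕ) (V : Type) [Fintype V] [LinearOrder V] (G : SimpleGraph V), (∀ i ∈ J, Van i G) →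
      ∀ ε : ℝ, 0 < ε → ∃ E : Finset (W G), (1 : W G) ∉ E ∧
        ∀ H : Subgroup (W G), H.FiniteIndex → (∀ g ∈ E, ∀ x : W G, x * g * x⁻¹ ∉ H) → ∀ i ∈ J,
          (Module.finrank ℝ (HInv G H i) : ℝ) ≤ ε * H.index) ∧
    (∀ (n : ℕ) (V : Type) [Fintype V] [LinearOrder V] (G : SimpleGraph V), HSph n G →
      (∀ i, n < 2 * i → Van i G) →
      (∀ i, 2 * i ≠ n → Van i G) ∧ ∀ m : ℕ, n = 2 * m → 0 ≤ (-1 : ℚ) ^ m * chiW G) := by
  refine ⟨fun i V _ _ G h => l2van_of_van h, fun J V _ _ G h ε hε => ?_, fun n V _ _ G hS h => ?_⟩
  · exact Pool.Agent.Q24.SG.growth_set G J (fun i hi => l2van_of_van (h i hi)) ε hε
  · have h1 : ∀ i, 2 * i ≠ n → L2Van G i := fun i hi =>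
      singer_of_above hS (fun i hi => l2van_of_van (h i hi)) i hi
    refine ⟨fun i hi => ?_, ?_⟩
    · by_cases h2 : n < 2 * i
      · exact h i h2
      · exact .dual (i := i) (j := n - i) (n := n) G hS (by omega) (h _ (by omega))
    · rintro m rfl
      exact chi_sign G fun i hi => h1 i (by omega)

end Pool.Agent.Results.MP_ea75ba_gt.DegreewiseClosure
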