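import Pool.Agent.H87.JC.Main

/-!
# `ℓ²`-homology above half the cocompact action dimension, for the joint class of right-angled Coxeter groups

`JC true n`, `JC false n` are the smallest classes of (natural numbers `n` and) finite graphs, thought of as the flag
complexes which they span, such that
* `JC true n` contains the class `AM n` of the library (order complexes of posets of length `n` which are Gorenstein*
  over `F_2`, for example the barycentric subdivisions of the triangulated `(n - 1)`-spheres, ...), and `JC false n`
  the class `AQ n` of the library, the complexes all of whose simplices have at most `n / 2` vertices and the homology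
  spheres of dimension `n - 1` with at most `(5 n + 2) / 2` vertices;
* `JC false (2 k + 1)` contains the complexes with a proper colouring by `k + 1` colours whose mod `2` van Kampen
  obstruction for the sphere of dimension `2 k` vanishes, the complexes of dimension at most `k` embedded in the sphere
  of dimension `2 k` with a proper colouring by `k + 1` colours outside a thin set of vertices, and the homology
  spheres in `JC true (2 k + 2)` whose right-angled Coxeter group has Euler characteristic zero;
* `JC false (2 m)` contains the complexes every clique with `m + 1` elements of which has more than `|V| - 3 (m + 1)`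
  common neighbours;
* both are closed under full subcomplexes, joins (the numbers add up), `n ↦ n + 1`, amalgamation (`G` is the union of
  full subcomplexes `A`, `B` and the unions of `A` and of `B` with the cone over `A ∩ B` are in the class `n`), gluing of
  members of number `n + 2` along a common full subcomplex of number `n`; `JC true` under stellar subdivisions of
  edges; `JC false` under `2 m + 1 ↦ 2 m`, vertex splittings, deleting edges, adding vertices;
* `JC true (n + 1)` contains the members of `JC false (n + 1)` all of whose vertex links are in `JC true n`.

If the flag complex `L` of a graph is a full subcomplex of a flag triangulated (combinatorial) sphere of dimension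
`n - 1` then its right-angled Coxeter group acts geometrically on a contractible `n`-manifold with boundary, and its
cocompact action dimension is at most `n`.
-/

set_option autoImplicit false

namespace Pool.Agent.Results.MP_ea75ba_gt.JointClosure

open Pool.Agent.W907.SG Pool.Agent.W907.SM Pool.Agent.TH652.Above Pool.Agent.Q169.RC Pool.Agent.Y132.SI
open Pool.Agent.H87.JC

/-- Let the finite graph `G` be in one of the classes `JC b n`. (1) For every full subcomplex `A` and every `i > n / 2`
the Davis complex of the right-angled Coxeter group of `A` has no nonzero `ℓ²` harmonic `i`-chain. (2) For each `ε > 0`
there is a finite set `E` of nontrivial elements of `W G` such that for each subgroup `H` of finite index which contains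
no conjugate of an element of `E` and each `i > n / 2` the `i`-th real Betti number of `H` is at most `ε [W G : H]`.
(3) If the flag complex of `G` is a real homology sphere of dimension `n - 1` then the Davis complex of `W G` has no
nonzero `ℓ²` harmonic `i`-chain for `i ≠ n / 2`. -/
theorem result (b : Bool) (n : ℕ) (V : Type) [Fintype V] [LinearOrder V] (G : SimpleGraph V) (h : JC b n G) :
    (∀ (A : Set V) [Fintype A] (i : ℕ), n < 2 * i → L2Van (G.induce A) i) ∧
    (∀ ε : ℝ, 0 < ε → ∃ E : Finset (W G), (1 : W G) ∉ E ∧
      ∀ H : Subgroup (W G), H.FiniteIndex → (∀ g ∈ E, ∀ x : W G, x * g * x⁻¹ ∉ H) →
        ∀ i : ℕ, n < 2 * i → (Module.finrank ℝ (HInv G H i) : ℝ) ≤ ε * H.index) ∧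
    (HSph n G → ∀ i : ℕ, 2 * i ≠ n → L2Van G i) := by
  have hQ := Q_of_JC h
  have hG : ∀ i : ℕ, n < 2 * i → L2Van G i := fun i hi => (lv_univ G i).1 (hQ.2 Set.univ i hi) _ _
  exact ⟨fun A _ i hi => hQ.2 A i hi _ _, fun ε hε => growth_of G (fun i => n < 2 * i) hG ε hε,
    fun hS i hi => singer_of_above hS hG i hi⟩

end Pool.Agent.Results.MP_ea75ba_gt.JointClosure
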