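import Pool.Agent.H6.RB.FIN3
import Pool.Agent.H6.RB.EMB2
import Pool.Agent.H6.RB.RAT
import Pool.Agent.H6.RB.TRN
import Pool.Agent.H6.RB.JOIN
import Pool.Agent.H6.RB.MV
import Pool.Agent.H6.RB.BASE

/-!
# `L²`-homology above half the cocompact action dimension: doubled nerves and right-angled Artin groups

Let `L` be a finite flag complex with the graph `G`, and let `D` be a set of vertices such that every vertex `a` outside `D`
is dominated by a vertex `u` in `D`: `u` is not adjacent to `a`, and the link of `a` is contained in the link of `u`
(`Dominating G D`; for example `D` is the set of all vertices). Let `N` be the flag complex in which each vertex `v ∈ D` of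
`L` is replaced by two vertices `(v, false)`, `(v, true)` with the same link; its graph is `Od G D`. If `D` is everything
then `N` is the octahedralisation `OL`, with the graph `Oc G`. The right-angled Coxeter group `W (Od G D)` has the nerve `N`,
it is the graph product of infinite dihedral groups for the vertices in `D` and of groups of order two for the others. The
group `W (Oc G)` is commensurable to the right-angled Artin group `A_L = RAAG G`. If `N` is piecewise linearly embedded in
the sphere of dimension `n - 1` then `W (Od G D)` acts geometrically on a contractible `n`-manifold, so that its
cocompact action dimension is at most `n`.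

**The van Kampen obstruction.** We show that if the reduced homology of a full subcomplex of `L` with coefficients in the
field with two elements does not vanish in some degree `j` then the van Kampen obstruction of `N` in the degree `2 j` is
not zero; in particular `N` is not embedded in the `2 j`-sphere. For `N = OL` and `j = dim L` this is a theorem of
Avramidi, Davis, Okun and Schreve. For all `j`: the statement that the `l`-th `L²`-Betti number of `A_L` is nonzero only if
the action dimension of `A_L` is at least `2 l` is their conjecture; it follows from the statement here and the theorem of
Bestvina, Kapovich and Kleiner on obstructor dimension.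

**The theorem.** Let `N` be almost embedded in the sphere of dimension `2 d` (`Emb d (Od G D)`), or suppose that its van
Kampen obstruction in the degree `2 d` vanishes (`Obs (Od G D) (2 * (d + 1))`). Then the reduced homology of `L` and of all
its full subcomplexes, with coefficients in `ZMod 2` and in `ℚ`, vanishes in all the degrees `≥ d`, and all the
`L²`-Betti numbers in the degrees `> d` are zero for the group `W (Od G D)`, for the groups `A_L` and `W (Oc G)`, and for
every group `K`, with or without torsion, finitely generated or not, such that each finitely generated subgroup of `K` has
a subgroup of finite index which embeds in one of these three groups (`VE`); for example for all groups which are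
commensurable to a subgroup of `A_L`. With `n = 2 d` or `n = 2 d + 1` the degrees `i > d` are the degrees `i > n / 2`.

**The proof.** Let all vertices be doubled. Let `c` be a cycle and `r` a cocycle of `L` in the degree `j` with `⟨c, r⟩ ≠ 0`,
where `j` is the largest degree in which the homology is not zero. As the cohomology vanishes above the degree `j`, the
function `r` on the simplices with `j + 1` vertices extends to a function `F` on all the simplices such that for each
simplex `ω` the sum of `F` over the proper faces of `ω` is zero. This function and the pairs of simplices of `c` define a
symmetric cycle of the deleted join of `OL`, on which the value of the van Kampen obstruction is `⟨c, r⟩`. If a vertex `a`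
is not doubled then the homology of `L` comes from `L - a` or from the link of `a`, and in the second case the cycle for
the link is joined with the three points `a`, `(u, false)`, `(u, true)`.
-/

set_option autoImplicit false

namespace Pool.Agent.Results.MP_ea75ba_gt.OctahedralNerves

open Pool.Agent.W907.SG Pool.Agent.W461.SGN Pool.Agent.N496.CV Pool.Agent.R782.Bal
open Pool.Agent.H6.RA Pool.Agent.H6.RB

/-- Let `D` be a dominating set of vertices of the finite graph `G`. Let the flag complex of `Od G D` be almost embedded in
the `2d`-sphere, or let its van Kampen obstruction in the degree `2d` vanish. Then the reduced cohomology mod 2 (`Co`) and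
the reduced rational homology (`Ac`) of the flag complex of `G` and of all its full subcomplexes vanish in the degrees
`i ≥ d`, and the `L²`-Betti numbers in the degrees `i > d` vanish for every group `K` each finitely generated subgroup of
which has a subgroup of finite index embedding in the right-angled Coxeter group `W (Od G D)` (`VE K (W (Od G D))`; `K` can be
this group), in the right-angled Artin group `RAAG G` or in `W (Oc G)`. -/
theorem result (V : Type) [Fintype V] [LinearOrder V] (G : SimpleGraph V) (D : Set V) (hD : Dominating G D) (d : ℕ)
    (h : Emb d (Od G D) ∨ Obs (Od G D) (2 * (d + 1))) :
    (∀ (C : Set V) (i : ℕ), d ≤ i → Co G C i ∧ Ac G C (i + 1)) ∧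
    ∀ (K : Type) [Group K], VE K (W (Od G D)) ∨ VE K (RAAG G) ∨ VE K (W (Oc G)) →
      ∀ i : ℕ, d < i → HasL2Betti K i 0 := by
  obtain ⟨h1, _, _⟩ := q2 emb2 rat trn join mv base G D hD d h
  refine ⟨h1, fun K _ hK i hi => has_o G i (by omega) (fun τ _ => ?_) K ?_⟩
  · obtain ⟨n, rfl⟩ : ∃ n, i = n + 1 := ⟨i - 1, by omega⟩
    exact (h1 (lkS G τ) n (by omega)).2
  · rcases hK with hK | hK | hK
    · exact ve_od G D hK
    · exact ve_raag G hK
    · exact hK

end Pool.Agent.Results.MP_ea75ba_gt.OctahedralNerves
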