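import Pool.Agent.H7.RC.Main

/-!
# `L²`-homology above the middle for right-angled Coxeter groups whose nerve is balanced outside a thin part

Let `L` be a finite flag complex of dimension at most `d`, with the graph `G`, which is embedded in the sphere of
dimension `2 d` (`Emb d G`). The right-angled Coxeter group `W G` acts geometrically on contractible manifolds with
boundary of dimension `2 d + 1` (at least if `L` is a subcomplex of a triangulated sphere), so that the question
predicts that the reduced `L²`-homology of `W G` vanishes in the degrees `i > (2 d + 1) / 2`, that is `i ≥ d + 1`.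

We prove this if there is a set `T` of vertices such that

* the full subcomplex of `L` spanned by the vertices which are not in `T` is balanced: it has a proper colouring by
  `d + 1` colours;
* `T` is thin (`Thin G T (d + 1)`): each nonempty family of `d`-simplices meeting `T` has a member `σ` with a face
  `σ \ v` of codimension one which is contained in no other member, or `v ∈ T` and the face is contained in exactly
  one other member. For example (`thin_of_two`), this is so if each `(d-1)`-simplex of `L` has at most two common
  neighbours in `T`.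

For `T` empty this is the theorem on balanced nerves; the complex `L` need not be balanced, and the vertices of `T` may
have arbitrary many neighbours and may be adjacent to each other.
-/

set_option autoImplicit false

namespace Pool.Agent.Results.MP_ea75ba_gt.RelativeColouring

open Finset Pool.Agent.W907.SG Pool.Agent.R782.Bal Pool.Agent.H7.RC

/-- A sufficient condition for thinness: each clique with `m - 1` elements has at most two common neighbours in `T`. -/
theorem thin_of_two {V : Type} [Fintype V] [LinearOrder V] {G : SimpleGraph V} {T : Set V} {m : ℕ}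
    (h : ∀ τ : Finset V, G.IsClique (τ : Set V) → τ.card + 1 = m →
      {t : V | t ∈ T ∧ t ∉ τ ∧ G.IsClique ((insert t τ : Finset V) : Set V)}.ncard ≤ 2) : Thin G T m := by
  classical
  intro F hF hcl
  obtain ⟨σ, hσ, hmin⟩ := exists_min_image F (fun σ => (σ.filter (fun u => u ∈ T)).card) hF
  obtain ⟨h1, h2, v, hv, hvT⟩ := hcl σ hσ
  refine ⟨σ, hσ, v, hv, ?_⟩
  have hins : insert v (σ.erase v) = σ := insert_erase hv
  have hcard : (σ.erase v).card + 1 = m := by
    rw [card_erase_of_mem hv, h2]
    have : 0 < σ.card := card_pos.mpr ⟨v, hv⟩
    omega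
  have hsub : ∀ τ ∈ F.filter (fun τ => σ.erase v ⊆ τ), ∃ t, t ∈ T ∧ t ∉ σ.erase v ∧
      G.IsClique ((insert t (σ.erase v) : Finset V) : Set V) ∧ τ = insert t (σ.erase v) := by
    intro τ hτ
    rw [mem_filter] at hτ
    obtain ⟨h3, h4, _⟩ := hcl τ hτ.1
    have h5 : (τ \ σ.erase v).card = 1 := by
      rw [card_sdiff_of_subset hτ.2]
      omega
    obtain ⟨t, ht⟩ := card_eq_one.mp h5
    have htm : t ∈ τ \ σ.erase v := by rw [ht]; exact mem_singleton_self t
    rw [mem_sdiff] at htm
    have hτe : τ = insert t (σ.erase v) := by
      rw [insert_eq, ← ht, union_comm]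
      exact (union_sdiff_of_subset hτ.2).symm
    refine ⟨t, ?_, htm.2, by rw [← hτe]; exact h3, hτe⟩
    by_contra htT
    have h6 := hmin τ hτ.1
    have h7 : (τ.filter (fun u => u ∈ T)).card < (σ.filter (fun u => u ∈ T)).card := by
      have e1 : τ.filter (fun u => u ∈ T) = (σ.erase v).filter (fun u => u ∈ T) := by
        rw [hτe, filter_insert, if_neg htT]
      rw [e1]
      refine card_lt_card ?_
      rw [ssubset_iff]
      refine ⟨v, by simp, ?_⟩
      have e2 : σ.filter (fun u => u ∈ T) = insert v ((σ.erase v).filter (fun u => u ∈ T)) := by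
        conv_lhs => rw [← hins, filter_insert, if_pos hvT]
      rw [e2]
    omega
  have hle : (F.filter (fun τ => σ.erase v ⊆ τ)).card ≤ 2 := by
    refine le_trans ?_ (h (σ.erase v) (h1.subset (by exact_mod_cast erase_subset v σ)) hcard)
    rw [Set.ncard_eq_toFinset_card']
    refine card_le_card_of_surjOn (fun t => insert t (σ.erase v)) ?_
    intro τ hτ
    obtain ⟨t, ht1, ht2, ht3, ht4⟩ := hsub τ hτ
    refine ⟨t, ?_, ht4.symm⟩
    rw [Set.coe_toFinset]
    exact ⟨ht1, ht2, ht3⟩
  have hge : 0 < (F.filter (fun τ => σ.erase v ⊆ τ)).card :=
    card_pos.mpr ⟨σ, mem_filter.mpr ⟨hσ, erase_subset v σ⟩⟩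
  rcases (show (F.filter (fun τ => σ.erase v ⊆ τ)).card = 1 ∨ (F.filter (fun τ => σ.erase v ⊆ τ)).card = 2 by
    omega) with h8 | h8
  · exact Or.inl h8
  · exact Or.inr ⟨hvT, h8⟩

/-- Let `G` be a finite graph whose cliques have at most `d + 1` elements and whose flag complex is embedded in the
sphere of dimension `2 d`. Let `T` be a set of vertices such that the subgraph induced on the complement of `T` is
properly coloured by `d + 1` colours and such that `T` is thin. Then the Davis complex of the right-angled Coxeter
group of `G` has no nonzero `ℓ²` harmonic `i`-chains for `i > d`. -/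
theorem result (d : ℕ) (V : Type) [Fintype V] [LinearOrder V] (G : SimpleGraph V) (T : Set V)
    (col : V → Fin (d + 1)) (hdim : ∀ σ : Finset V, G.IsClique (σ : Set V) → σ.card ≤ d + 1)
    (hcol : ∀ u w, u ∉ T → w ∉ T → G.Adj u w → col u ≠ col w) (hT : Thin G T (d + 1)) (hE : Emb d G)
    (i : ℕ) (hi : d < i) : L2Van G i :=
  rel T col hdim hcol hT hE i hi

end Pool.Agent.Results.MP_ea75ba_gt.RelativeColouring
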